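import Pool.Agent.Helper54.CG.Goals
import Mathlib

/-! Packet CG-F9: the fibre of nine points. -/

namespace Pool.Agent.Helper47.CG.F9

open Pool.Agent.Helper16.Cusp Pool.Agent.Helper54.CG

lemma eval_pull (F : R) (v : V) :
    MvPolynomial.eval v (Pool.Agent.Helper54.CG.pull F) =
      MvPolynomial.eval (Pool.Agent.Helper54.CG.phi v) F := by
  unfold Pool.Agent.Helper54.CG.pull
  induction F using MvPolynomial.induction_on with
  | C a => simp
  | add p q hp hq => simp only [map_add, hp, hq]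
  | mul_X p n hp => simp only [map_mul, hp, MvPolynomial.aeval_X, MvPolynomial.eval_X,
      Pool.Agent.Helper54.CG.phi]

lemma key (p w D q u : ℂ) (hu : u = 9 * D * w / 8) (h3 : u = 27 - p ^ 3)
    (h2 : D ^ 3 - q * D ^ 2 + 144 * p * D + 1728 = 0) :
    64 * D * (-72 * p ^ 2 * u ^ 2 - 18 * p * u ^ 2 * w + 54 * p ^ 2 * q * u * w + 9 * q * u ^ 2 +
      1458 * u * w ^ 2 - 4374 * p ^ 3 * w ^ 2 - 2916 * p * u * w - 59049 * w ^ 2) =
      w ^ 2 * (9 * (4 * p ^ 2 * D - 3 * D ^ 2 + 288 * p)) ^ 2 := by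
  linear_combination (64 * D * (-72 * p ^ 2 * (u + 9 * D * w / 8) - 18 * p * w * u +
    54 * p ^ 2 * q * w + 9 * q * (u + 9 * D * w / 8) - 2916 * p * w)) * hu +
    (64 * D * (-(81 / 4) * p * D * w ^ 2 + 1458 * w ^ 2)) * h3 -
    (3888 * p ^ 2 + 729 * D) * w ^ 2 * h2

/-- the polynomial of the fibre -/
noncomputable def PP (α β : ℂ) : Polynomial ℂ :=
  Polynomial.C 8 * (Polynomial.C 27 - Polynomial.X ^ 3) ^ 3 -
    Polynomial.C 9 * (Polynomial.X ^ 2 + Polynomial.C (12 * β)) *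
      (Polynomial.C 27 - Polynomial.X ^ 3) ^ 2 * (Polynomial.C α - Polynomial.X) +
    Polynomial.C 1458 * Polynomial.X * (Polynomial.C 27 - Polynomial.X ^ 3) *
      (Polynomial.C α - Polynomial.X) ^ 2 +
    Polynomial.C 19683 * (Polynomial.C α - Polynomial.X) ^ 3

lemma PP_monic (α β : ℂ) : (PP α β).Monic := by
  unfold PP
  monicity!

lemma PP_natDegree (α β : ℂ) : (PP α β).natDegree = 9 := by
  unfold PP
  compute_degree!

lemma PP_eval (α β p : ℂ) : (PP α β).eval p = 8 * (27 - p ^ 3) ^ 3 -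
    9 * (p ^ 2 + 12 * β) * (27 - p ^ 3) ^ 2 * (α - p) + 1458 * p * (27 - p ^ 3) * (α - p) ^ 2 +
    19683 * (α - p) ^ 3 := by
  simp [PP]

lemma PP_deriv (α β p : ℂ) : (PP α β).derivative.eval p =
    -72 * p ^ 2 * (27 - p ^ 3) ^ 2 - 18 * p * (27 - p ^ 3) ^ 2 * (α - p) +
      54 * p ^ 2 * (p ^ 2 + 12 * β) * (27 - p ^ 3) * (α - p) +
      9 * (p ^ 2 + 12 * β) * (27 - p ^ 3) ^ 2 + 1458 * (27 - p ^ 3) * (α - p) ^ 2 -
      4374 * p ^ 3 * (α - p) ^ 2 - 2916 * p * (27 - p ^ 3) * (α - p) - 59049 * (α - p) ^ 2 := by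
  unfold PP
  simp [Polynomial.derivative_pow]
  ring

/-- facts at a root of the polynomial -/
lemma root_facts (h1 : G_MR) (α β p : ℂ) (hα : α ^ 3 ≠ 27)
    (hM : MvPolynomial.eval ![α, β, 1] pM ≠ 0) (hp : (PP α β).eval p = 0) :
    p ^ 3 ≠ 27 ∧ ∃ q t : ℂ, MvPolynomial.eval ![p, q, 1] pM ≠ 0 ∧
      MvPolynomial.eval ![p, q, 1] pR ≠ 0 ∧ t ≠ 0 ∧
      Pool.Agent.Helper54.CG.phi ![p, q, 1] = wsm t ![α, β, 1] ∧
      (PP α β).derivative.eval p ≠ 0 := by
  rw [PP_eval] at hp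
  have hw : α - p ≠ 0 := by
    intro h
    rw [h] at hp
    have h' : (27 - p ^ 3) ^ 3 = 0 := by linear_combination hp / 8
    have h'' : 27 - p ^ 3 = 0 := pow_eq_zero_iff (n := 3) (by norm_num) |>.1 h'
    apply hα
    have : α = p := by linear_combination h
    rw [this]
    linear_combination -h''
  have hu : 27 - p ^ 3 ≠ 0 := by
    intro h
    rw [h] at hp
    have h' : (α - p) ^ 3 = 0 := by linear_combination hp / 19683
    exact hw (pow_eq_zero_iff (n := 3) (by norm_num) |>.1 h')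
  obtain ⟨D, hD⟩ : ∃ D : ℂ, D = 8 * (27 - p ^ 3) / (9 * (α - p)) := ⟨_, rfl⟩
  have hDw : 27 - p ^ 3 = 9 * D * (α - p) / 8 := by
    rw [hD]; field_simp
  have hD0 : D ≠ 0 := by
    intro h
    rw [h] at hDw
    apply hu
    rw [hDw]; ring
  have h2 : D ^ 3 - (p ^ 2 + 12 * β) * D ^ 2 + 144 * p * D + 1728 = 0 := by
    have h3 : (α - p) ^ 3 *
        (D ^ 3 - (p ^ 2 + 12 * β) * D ^ 2 + 144 * p * D + 1728) = 0 := by
      have h4 := hp
      rw [hDw] at h4
      linear_combination (64 / 729) * h4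
    rcases mul_eq_zero.1 h3 with h | h
    · exact absurd (pow_eq_zero_iff (n := 3) (by norm_num) |>.1 h) hw
    · exact h
  obtain ⟨q, hq⟩ : ∃ q : ℂ, q = (p ^ 2 - D) / 4 := ⟨_, rfl⟩
  have hphi : Pool.Agent.Helper54.CG.phi ![p, q, 1] = wsm (9 * D) ![α, β, 1] := by
    funext i
    fin_cases i
    · simp [Pool.Agent.Helper54.CG.phi, ff, pA, wsm]
      rw [hq]
      linear_combination 8 * hDw
    · simp [Pool.Agent.Helper54.CG.phi, ff, pB, wsm]
      rw [hq]
      linear_combination (27 / 4) * h2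
    · simp [Pool.Agent.Helper54.CG.phi, ff, pC, wsm]
      rw [hq]
      ring
  have hMR : MvPolynomial.eval ![p, q, 1] pM * MvPolynomial.eval ![p, q, 1] pR ^ 3 =
      (9 * D) ^ 6 * MvPolynomial.eval ![α, β, 1] pM := by
    have h5 := congrArg (MvPolynomial.eval ![p, q, 1]) h1
    rw [eval_pull, hphi, map_mul, map_pow] at h5
    rw [← h5]
    simp [pM, wsm]
    ring
  have h9D : (9 * D) ≠ 0 := mul_ne_zero (by norm_num) hD0
  have hne : MvPolynomial.eval ![p, q, 1] pM * MvPolynomial.eval ![p, q, 1] pR ^ 3 ≠ 0 := by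
    rw [hMR]
    exact mul_ne_zero (pow_ne_zero _ h9D) hM
  have hM' := left_ne_zero_of_mul hne
  have hR' : MvPolynomial.eval ![p, q, 1] pR ≠ 0 := by
    intro h
    apply right_ne_zero_of_mul hne
    rw [h]; norm_num
  refine ⟨fun h => hu (by rw [h]; ring), q, 9 * D, hM', hR', h9D, hphi, ?_⟩
  intro hder
  have hk := key p (α - p) D (p ^ 2 + 12 * β) (27 - p ^ 3) hDw rfl h2
  rw [PP_deriv] at hder
  rw [hder, mul_zero] at hk
  have hR2 : MvPolynomial.eval ![p, q, 1] pR = 9 * (4 * p ^ 2 * D - 3 * D ^ 2 + 288 * p) := by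
    simp [pR]
    rw [hq]
    ring
  rw [← hR2] at hk
  exact mul_ne_zero (pow_ne_zero 2 hw) (pow_ne_zero 2 hR') hk.symm

theorem t (h1 : G_MR) : G_F9 := by
  classical
  intro α β hα hM
  have hP0 : PP α β ≠ 0 := (PP_monic α β).ne_zero
  have hnd : (PP α β).roots.Nodup := by
    rw [Multiset.nodup_iff_count_le_one]
    intro p
    rw [Polynomial.count_roots]
    by_contra hlt
    push Not at hlt
    rw [Polynomial.one_lt_rootMultiplicity_iff_isRoot hP0] at hlt
    obtain ⟨hr, hr'⟩ := hlt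
    obtain ⟨_, q, t, _, _, _, _, hd⟩ := root_facts h1 α β p hα hM hr
    exact hd hr'
  have hcard : (PP α β).roots.toFinset.card = 9 := by
    rw [Multiset.toFinset_card_of_nodup hnd, ← PP_natDegree α β]
    exact (Polynomial.splits_iff_card_roots.1 (IsAlgClosed.splits _))
  let e := (Finset.equivFinOfCardEq hcard).symm
  have hroot : ∀ i, (PP α β).eval ((e i : ℂ)) = 0 := by
    intro i
    have := (e i).2
    rw [Multiset.mem_toFinset, Polynomial.mem_roots hP0] at this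
    exact this
  choose h3 q t hM' hR' ht hphi _ using fun i => root_facts h1 α β (e i : ℂ) hα hM (hroot i)
  refine ⟨fun i => ((e i : ℂ), q i), ?_, ?_⟩
  · intro i j hij
    have := congrArg Prod.fst hij
    exact e.injective (Subtype.ext this)
  · intro i
    exact ⟨h3 i, hM' i, hR' i, t i, ht i, hphi i⟩

end Pool.Agent.Helper47.CG.F9
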